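import Mathlib

/-!
# Finite subgroups of cactus groups: the wreath product description fails for `n = 10`

We show that the cactus group `J_10` contains a finite subgroup of order at least `256`
(it is isomorphic to a Sylow `2`-subgroup of the symmetric group on ten letters), while every group
`W(r_1, …, r_s)` with all `r_k ≥ 2` and `r_1 ⋯ r_s ≤ 5` has order at most `128`.
-/

set_option autoImplicit false

namespace Pool.Agent.Results.MP_2b0b8a_al.SylowTen

/-- The index set of the generators `s_{p,q}`, `1 ≤ p < q ≤ n`, of the cactus group `J_n`. -/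
def Gen (n : ℕ) : Type := {g : ℕ × ℕ // 1 ≤ g.1 ∧ g.1 < g.2 ∧ g.2 ≤ n}

/-- The defining relators of the cactus group `J_n`: with `s g` the generator `s_{p,q}` for
`g = (p, q)`,
* `s_{p,q}²`;
* `s_{p,q} s_{m,r} (s_{m,r} s_{p,q})⁻¹` if the intervals `[p,q]` and `[m,r]` are disjoint;
* `s_{p,q} s_{m,r} (s_{p+q-r,p+q-m} s_{p,q})⁻¹` if `[m,r] ⊆ [p,q]`. -/
def rels (n : ℕ) : Set (FreeGroup (Gen n)) :=
  {w | ∃ g : Gen n, w = FreeGroup.of g * FreeGroup.of g} ∪
  {w | ∃ g h : Gen n, (g.1.2 < h.1.1 ∨ h.1.2 < g.1.1) ∧
    w = FreeGroup.of g * FreeGroup.of h * (FreeGroup.of h * FreeGroup.of g)⁻¹} ∪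
  {w | ∃ g h k : Gen n, g.1.1 ≤ h.1.1 ∧ h.1.2 ≤ g.1.2 ∧
    k.1.1 = g.1.1 + g.1.2 - h.1.2 ∧ k.1.2 = g.1.1 + g.1.2 - h.1.1 ∧
    w = FreeGroup.of g * FreeGroup.of h * (FreeGroup.of k * FreeGroup.of g)⁻¹}

/-- The cactus group `J_n`. -/
abbrev J (n : ℕ) : Type := PresentedGroup (rels n)

/-- The automorphism of `A^r` which reverses the order of the coordinates. -/
def revAut (A : Type) [Group A] (r : ℕ) : MulAut (Fin r → A) where
  toFun f := fun i => f (Fin.rev i)
  invFun f := fun i => f (Fin.rev i)
  left_inv f := by funext i; simp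
  right_inv f := by funext i; simp
  map_mul' f g := rfl

/-- The action of `ℤ/2ℤ` on `A^r` whose nontrivial element reverses the order of the coordinates. -/
def revHom (A : Type) [Group A] (r : ℕ) : Multiplicative (ZMod 2) →* MulAut (Fin r → A) where
  toFun e := if e = 1 then 1 else revAut A r
  map_one' := by simp
  map_mul' a b := by
    have hrr : revAut A r * revAut A r = 1 := by
      ext f i
      change f (Fin.rev (Fin.rev i)) = f i
      rw [Fin.rev_rev]
    have h2 : ∀ e : Multiplicative (ZMod 2), e = 1 ∨ e = Multiplicative.ofAdd 1 := by decide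
    have h01 : (Multiplicative.ofAdd 1 : Multiplicative (ZMod 2)) ≠ 1 := by decide
    have h11 : (Multiplicative.ofAdd 1 : Multiplicative (ZMod 2)) * Multiplicative.ofAdd 1 = 1 := by
      decide
    rcases h2 a with rfl | rfl <;> rcases h2 b with rfl | rfl <;> simp [h01, h11, hrr]

/-- The group `A ≀_r ℤ/2ℤ = A^r ⋊ ℤ/2ℤ`, the nontrivial element of `ℤ/2ℤ` reversing the order of
the coordinates. -/
abbrev RevWreath (A : Type) [Group A] (r : ℕ) : Type :=
  (Fin r → A) ⋊[revHom A r] Multiplicative (ZMod 2)

/-- The group `W(r_1, …, r_s)` for the list `[r_1, …, r_s]`: start with `ℤ/2ℤ` and apply the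
operations `≀_{r_1} ℤ/2ℤ`, …, `≀_{r_s} ℤ/2ℤ` one after another. -/
def W (l : List ℕ) : GrpCat.{0} :=
  l.foldl (fun A r => GrpCat.of (RevWreath A r)) (GrpCat.of (Multiplicative (ZMod 2)))

/-- `G` embeds into `H`: there is an injective homomorphism from `G` to `H`. -/
def Embeds (G H : Type) [Group G] [Group H] : Prop := ∃ f : G →* H, Function.Injective f

/-! ## The groups `W` -/

theorem card_foldl (l : List ℕ) : ∀ A : GrpCat.{0}, Finite A →
    Finite (l.foldl (fun A r => GrpCat.of (RevWreath A r)) A : GrpCat.{0}) ∧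
    Nat.card (l.foldl (fun A r => GrpCat.of (RevWreath A r)) A : GrpCat.{0}) =
      l.foldl (fun c r => c ^ r * 2) (Nat.card A) := by
  induction l with
  | nil => intro A hA; exact ⟨hA, rfl⟩
  | cons r l ih =>
    intro A hA
    rw [List.foldl_cons, List.foldl_cons]
    have e : RevWreath A r ≃ (Fin r → A) × Multiplicative (ZMod 2) :=
      SemidirectProduct.equivProd
    have hfin : Finite (RevWreath A r) := Finite.of_equiv _ e.symm
    have hcard : Nat.card (RevWreath A r) = Nat.card A ^ r * 2 := by
      rw [Nat.card_congr e, Nat.card_prod, Nat.card_fun, Nat.card_eq_fintype_card (α := Fin r),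
        Fintype.card_fin]
      congr 1
      simp [Nat.card_eq_fintype_card]
    have := ih (GrpCat.of (RevWreath A r)) hfin
    refine ⟨this.1, ?_⟩
    rw [this.2]
    congr 1

theorem card_W (l : List ℕ) : Finite (W l) ∧ Nat.card (W l) = l.foldl (fun c r => c ^ r * 2) 2 := by
  have h := card_foldl l (GrpCat.of (Multiplicative (ZMod 2)))
    (inferInstanceAs (Finite (Multiplicative (ZMod 2))))
  refine ⟨h.1, ?_⟩
  have h2 : Nat.card (GrpCat.of (Multiplicative (ZMod 2)) : GrpCat.{0}) = 2 := by
    change Nat.card (Multiplicative (ZMod 2)) = 2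
    simp [Nat.card_eq_fintype_card]
  rw [h2] at h
  exact h.2

theorem foldl_le (l : List ℕ) (h2 : ∀ r ∈ l, 2 ≤ r) (hl : 2 * l.prod ≤ 10) :
    l.foldl (fun c r => c ^ r * 2) 2 ≤ 128 := by
  match l, h2, hl with
  | [], _, _ => simp
  | [a], h2, hl =>
    have ha : a ≤ 5 := by simp at hl; omega
    interval_cases a <;> simp
  | [a, b], h2, hl =>
    have ha : 2 ≤ a := h2 a (by simp)
    have hb : 2 ≤ b := h2 b (by simp)
    have hab : a * b ≤ 5 := by simp at hl; omega
    have ha' : a = 2 := by nlinarith
    have hb' : b = 2 := by nlinarith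
    subst ha' hb'
    simp
  | a :: b :: c :: l, h2, hl =>
    exfalso
    have ha : 2 ≤ a := h2 a (by simp)
    have hb : 2 ≤ b := h2 b (by simp)
    have hc : 2 ≤ c := h2 c (by simp)
    have hp : 1 ≤ l.prod := by
      apply Nat.one_le_iff_ne_zero.mpr
      intro h0
      have := List.prod_eq_zero_iff.mp h0
      have := h2 0 (by simp [this])
      omega
    simp only [List.prod_cons] at hl
    have h1 : 2 * (2 * (2 * 1)) ≤ a * (b * (c * l.prod)) := by gcongr
    omega

/-! ## Finite subgroups generated by involutions -/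

section General

variable {G : Type*} [Group G]

/-- If `t` is an involution, `A` is finite and `A` commutes with `t A t`, then `⟨A, t⟩` is finite. -/
theorem finite_wreath (A : Subgroup G) (hA : Finite A) (t : G) (ht : t * t = 1)
    (hc : ∀ a ∈ A, ∀ b ∈ A, a * (t * b * t) = t * b * t * a) :
    Finite (Subgroup.closure ((A : Set G) ∪ {t})) := by
  have h1 : ∀ b b' : G, (t * b * t) * (t * b' * t) = t * (b * b') * t := by
    intro b b'
    calc (t * b * t) * (t * b' * t) = t * b * (t * t) * b' * t := by group
      _ = _ := by rw [ht]; group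
  have h2 : ∀ a : G, t * a = t * a * t * t := by
    intro a
    rw [mul_assoc (t * a), ht, mul_one]
  have h3 : ∀ b : G, t * (t * b * t) = b * t := by
    intro b
    calc t * (t * b * t) = (t * t) * b * t := by group
      _ = _ := by rw [ht]; group
  have hti : t⁻¹ = t := inv_eq_of_mul_eq_one_left ht
  let K : Subgroup G :=
    { carrier := {x | ∃ a ∈ A, ∃ b ∈ A, x = a * (t * b * t) ∨ x = a * (t * b * t) * t}
      one_mem' := ⟨1, A.one_mem, 1, A.one_mem, Or.inl (by simp [ht])⟩
      mul_mem' := by
        rintro x y ⟨a, ha, b, hb, hx⟩ ⟨a', ha', b', hb', hy⟩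
        have key1 : a * (t * b * t) * (a' * (t * b' * t)) =
            (a * a') * (t * (b * b') * t) := by
          rw [← h1 b b']
          calc a * (t * b * t) * (a' * (t * b' * t))
              = a * ((t * b * t) * a') * (t * b' * t) := by group
            _ = a * (a' * (t * b * t)) * (t * b' * t) := by rw [hc a' ha' b hb]
            _ = _ := by group
        have key2 : a * (t * b * t) * t * (a' * (t * b' * t)) =
            (a * b') * (t * (b * a') * t) * t := by
          calc a * (t * b * t) * t * (a' * (t * b' * t))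
              = a * (t * b * t) * (t * a') * (t * b' * t) := by group
            _ = a * (t * b * t) * (t * a' * t * t) * (t * b' * t) := by rw [← h2 a']
            _ = a * ((t * b * t) * (t * a' * t)) * (t * (t * b' * t)) := by group
            _ = a * (t * (b * a') * t) * (b' * t) := by rw [h1, h3]
            _ = a * ((t * (b * a') * t) * b') * t := by group
            _ = a * (b' * (t * (b * a') * t)) * t := by rw [hc b' hb' _ (A.mul_mem hb ha')]
            _ = _ := by group
        rcases hx with rfl | rfl <;> rcases hy with rfl | rfl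
        · exact ⟨_, A.mul_mem ha ha', _, A.mul_mem hb hb', Or.inl key1⟩
        · exact ⟨_, A.mul_mem ha ha', _, A.mul_mem hb hb', Or.inr (by rw [← mul_assoc, key1])⟩
        · exact ⟨_, A.mul_mem ha hb', _, A.mul_mem hb ha', Or.inr key2⟩
        · refine ⟨_, A.mul_mem ha hb', _, A.mul_mem hb ha', Or.inl ?_⟩
          rw [← mul_assoc, key2, mul_assoc _ t t, ht, mul_one]
      inv_mem' := by
        rintro x ⟨a, ha, b, hb, hx⟩
        have key1 : (a * (t * b * t))⁻¹ = a⁻¹ * (t * b⁻¹ * t) := by
          rw [hc a ha b hb, mul_inv_rev]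
          simp only [mul_inv_rev, hti, mul_assoc]
        rcases hx with rfl | rfl
        · exact ⟨_, A.inv_mem ha, _, A.inv_mem hb, Or.inl key1⟩
        · refine ⟨b⁻¹, A.inv_mem hb, a⁻¹, A.inv_mem ha, Or.inr ?_⟩
          rw [mul_inv_rev, key1, hti, hc a⁻¹ (A.inv_mem ha) b⁻¹ (A.inv_mem hb)]
          calc t * (t * b⁻¹ * t * a⁻¹) = (t * t) * b⁻¹ * (t * a⁻¹) := by group
            _ = b⁻¹ * (t * a⁻¹ * t * t) := by rw [ht, ← h2 a⁻¹]; group
            _ = _ := by group }
  have hK : Finite K := by
    have : (K : Set G) ⊆ Set.range (fun z : A × A × Bool =>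
        if z.2.2 then (z.1 : G) * (t * z.2.1 * t) else (z.1 : G) * (t * z.2.1 * t) * t) := by
      rintro x ⟨a, ha, b, hb, hx⟩
      rcases hx with rfl | rfl
      · exact ⟨(⟨a, ha⟩, ⟨b, hb⟩, true), by simp⟩
      · exact ⟨(⟨a, ha⟩, ⟨b, hb⟩, false), by simp⟩
    exact (Set.finite_range _).subset this
  have hle : Subgroup.closure ((A : Set G) ∪ {t}) ≤ K := by
    rw [Subgroup.closure_le]
    rintro x (hx | hx)
    · exact ⟨x, hx, 1, A.one_mem, Or.inl (by simp [ht])⟩
    · rw [Set.mem_singleton_iff] at hx
      exact ⟨1, A.one_mem, 1, A.one_mem, Or.inr (by simp [hx, ht])⟩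
  exact Finite.of_injective _ (Subgroup.inclusion_injective hle)

/-- If `u` is an involution commuting with the finite group `A`, then `⟨A, u⟩` is finite. -/
theorem finite_central (A : Subgroup G) (hA : Finite A) (u : G) (hu : u * u = 1)
    (hc : ∀ a ∈ A, a * u = u * a) : Finite (Subgroup.closure ((A : Set G) ∪ {u})) := by
  have hui : u⁻¹ = u := inv_eq_of_mul_eq_one_left hu
  let K : Subgroup G :=
    { carrier := {x | ∃ a ∈ A, x = a ∨ x = a * u}
      one_mem' := ⟨1, A.one_mem, Or.inl rfl⟩
      mul_mem' := by
        rintro x y ⟨a, ha, hx⟩ ⟨b, hb, hy⟩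
        refine ⟨a * b, A.mul_mem ha hb, ?_⟩
        rcases hx with rfl | rfl <;> rcases hy with rfl | rfl
        · exact Or.inl rfl
        · exact Or.inr (mul_assoc _ _ _).symm
        · exact Or.inr (by rw [mul_assoc, ← hc y hb, mul_assoc])
        · refine Or.inl ?_
          calc a * u * (b * u) = a * (u * b) * u := by group
            _ = a * (b * u) * u := by rw [hc b hb]
            _ = a * b * (u * u) := by group
            _ = _ := by rw [hu, mul_one]
      inv_mem' := by
        rintro x ⟨a, ha, hx⟩
        refine ⟨a⁻¹, A.inv_mem ha, ?_⟩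
        rcases hx with rfl | rfl
        · exact Or.inl rfl
        · exact Or.inr (by rw [mul_inv_rev, hui, hc _ (A.inv_mem ha)]) }
  have hK : Finite K := by
    have : (K : Set G) ⊆ Set.range (fun z : A × Bool =>
        if z.2 then (z.1 : G) else (z.1 : G) * u) := by
      rintro x ⟨a, ha, hx⟩
      rcases hx with rfl | rfl
      · exact ⟨(⟨x, ha⟩, true), by simp⟩
      · exact ⟨(⟨a, ha⟩, false), by simp⟩
    exact (Set.finite_range _).subset this
  have hle : Subgroup.closure ((A : Set G) ∪ {u}) ≤ K := by
    rw [Subgroup.closure_le]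
    rintro x (hx | hx)
    · exact ⟨x, hx, Or.inl rfl⟩
    · rw [Set.mem_singleton_iff] at hx
      exact ⟨1, A.one_mem, Or.inr (by simp [hx])⟩
  exact Finite.of_injective _ (Subgroup.inclusion_injective hle)

theorem closure_comm {S T : Set G} (h : ∀ x ∈ S, ∀ y ∈ T, x * y = y * x) :
    ∀ a ∈ Subgroup.closure S, ∀ b ∈ Subgroup.closure T, a * b = b * a := by
  have h1 : Subgroup.closure S ≤ Subgroup.centralizer (Subgroup.closure T : Set G) := by
    rw [Subgroup.closure_le]
    intro x hx
    have h2 : Subgroup.closure T ≤ Subgroup.centralizer {x} := by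
      rw [Subgroup.closure_le]
      intro y hy
      rw [SetLike.mem_coe, Subgroup.mem_centralizer_iff]
      intro z hz
      rw [Set.mem_singleton_iff] at hz
      rw [hz]
      exact h x hx y hy
    rw [SetLike.mem_coe, Subgroup.mem_centralizer_iff]
    intro y hy
    have := (Subgroup.mem_centralizer_iff.mp (h2 hy)) x rfl
    exact this.symm
  intro a ha b hb
  exact ((Subgroup.mem_centralizer_iff.mp (h1 ha)) b hb).symm

/-- Adding the involution `t` to the finite group generated by `S`, if `S` commutes with `t S t`. -/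
theorem finite_insert_wreath (S : Set G) (hS : Finite (Subgroup.closure S)) (t : G)
    (ht : t * t = 1) (hc : ∀ x ∈ S, ∀ y ∈ S, x * (t * y * t) = t * y * t * x) :
    Finite (Subgroup.closure (insert t S)) := by
  have hti : t⁻¹ = t := inv_eq_of_mul_eq_one_left ht
  have h1 : ∀ a ∈ Subgroup.closure S, ∀ b ∈ Subgroup.closure S,
      a * (t * b * t) = t * b * t * a := by
    intro a ha b hb
    refine closure_comm (S := S) (T := (fun y => t * y * t) '' S) ?_ a ha (t * b * t) ?_
    · rintro x hx _ ⟨y, hy, rfl⟩
      exact hc x hx y hy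
    · have h2 : Subgroup.closure ((fun y => t * y * t) '' S) =
          (Subgroup.closure S).map (MulAut.conj t).toMonoidHom := by
        rw [MonoidHom.map_closure]
        congr 1
        ext z
        simp [hti]
      rw [h2]
      exact ⟨b, hb, by simp [hti]⟩
  have h3 := finite_wreath (Subgroup.closure S) hS t ht h1
  have hle : Subgroup.closure (insert t S) ≤
      Subgroup.closure ((Subgroup.closure S : Set G) ∪ {t}) := by
    rw [Subgroup.closure_le]
    rintro x (hx | hx)
    · exact Subgroup.subset_closure (Or.inr hx)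
    · exact Subgroup.subset_closure (Or.inl (Subgroup.subset_closure hx))
  exact Finite.of_injective _ (Subgroup.inclusion_injective hle)

theorem finite_insert_central (S : Set G) (hS : Finite (Subgroup.closure S)) (u : G)
    (hu : u * u = 1) (hc : ∀ x ∈ S, x * u = u * x) :
    Finite (Subgroup.closure (insert u S)) := by
  have h1 : ∀ a ∈ Subgroup.closure S, a * u = u * a := by
    intro a ha
    refine closure_comm (S := S) (T := {u}) ?_ a ha u (Subgroup.subset_closure rfl)
    rintro x hx y rfl
    exact hc x hx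
  have h3 := finite_central (Subgroup.closure S) hS u hu h1
  have hle : Subgroup.closure (insert u S) ≤
      Subgroup.closure ((Subgroup.closure S : Set G) ∪ {u}) := by
    rw [Subgroup.closure_le]
    rintro x (hx | hx)
    · exact Subgroup.subset_closure (Or.inr hx)
    · exact Subgroup.subset_closure (Or.inl (Subgroup.subset_closure hx))
  exact Finite.of_injective _ (Subgroup.inclusion_injective hle)

end General

/-! ## The finite subgroup of `J_10` -/

/-- the index `(p, q)` of a generator -/
def gen {n : ℕ} (p q : ℕ) (h : 1 ≤ p ∧ p < q ∧ q ≤ n) : Gen n := ⟨(p, q), h⟩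

/-- the generator `s_{p,q}` of `J_n` -/
def s {n : ℕ} (p q : ℕ) (h : 1 ≤ p ∧ p < q ∧ q ≤ n) : J n :=
  PresentedGroup.of (gen p q h)

theorem s_sq {n p q : ℕ} (h : 1 ≤ p ∧ p < q ∧ q ≤ n) : s p q h * s p q h = 1 := by
  have : PresentedGroup.mk (rels n) (FreeGroup.of (gen p q h) * FreeGroup.of (gen p q h)) = 1 :=
    PresentedGroup.one_of_mem (Or.inl (Or.inl ⟨_, rfl⟩))
  rw [map_mul] at this
  exact this

theorem s_comm {n p q m r : ℕ} (h : 1 ≤ p ∧ p < q ∧ q ≤ n) (h' : 1 ≤ m ∧ m < r ∧ r ≤ n)
    (hd : q < m ∨ r < p) : s p q h * s m r h' = s m r h' * s p q h := by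
  have : PresentedGroup.mk (rels n) (FreeGroup.of (gen p q h) * FreeGroup.of (gen m r h') *
      (FreeGroup.of (gen m r h') * FreeGroup.of (gen p q h))⁻¹) = 1 :=
    PresentedGroup.one_of_mem (Or.inl (Or.inr ⟨_, _, hd, rfl⟩))
  rw [map_mul, map_inv, mul_inv_eq_one, map_mul, map_mul] at this
  exact this

theorem s_rev {n p q m r m' r' : ℕ} (h : 1 ≤ p ∧ p < q ∧ q ≤ n) (h' : 1 ≤ m ∧ m < r ∧ r ≤ n)
    (h'' : 1 ≤ m' ∧ m' < r' ∧ r' ≤ n) (h1 : p ≤ m) (h2 : r ≤ q) (h3 : m' = p + q - r)
    (h4 : r' = p + q - m) : s p q h * s m r h' = s m' r' h'' * s p q h := by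
  have : PresentedGroup.mk (rels n) (FreeGroup.of (gen p q h) * FreeGroup.of (gen m r h') *
      (FreeGroup.of (gen m' r' h'') * FreeGroup.of (gen p q h))⁻¹) = 1 :=
    PresentedGroup.one_of_mem (Or.inr ⟨_, _, _, h1, h2, h3, h4, rfl⟩)
  rw [map_mul, map_inv, mul_inv_eq_one, map_mul, map_mul] at this
  exact this

theorem s_conj {n p q m r m' r' : ℕ} (h : 1 ≤ p ∧ p < q ∧ q ≤ n) (h' : 1 ≤ m ∧ m < r ∧ r ≤ n)
    (h'' : 1 ≤ m' ∧ m' < r' ∧ r' ≤ n) (h1 : p ≤ m) (h2 : r ≤ q) (h3 : m' = p + q - r)
    (h4 : r' = p + q - m) : s p q h * s m r h' * s p q h = s m' r' h'' := by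
  rw [s_rev h h' h'' h1 h2 h3 h4, mul_assoc, s_sq, mul_one]

/-- the reversal of the interval `[p,q]` as a permutation of `ℕ` -/
def rv (p q : ℕ) : Equiv.Perm ℕ where
  toFun x := if p ≤ x ∧ x ≤ q then p + q - x else x
  invFun x := if p ≤ x ∧ x ≤ q then p + q - x else x
  left_inv x := by dsimp only; split_ifs <;> omega
  right_inv x := by dsimp only; split_ifs <;> omega

theorem rv_apply (p q x : ℕ) : rv p q x = if p ≤ x ∧ x ≤ q then p + q - x else x := rfl

/-- the homomorphism from `J_n` to the permutations of `ℕ` -/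
def perm (n : ℕ) : J n →* Equiv.Perm ℕ :=
  PresentedGroup.toGroup (f := fun g : Gen n => rv g.1.1 g.1.2) (by
    rintro w ((⟨g, rfl⟩ | ⟨g, h, hd, rfl⟩) | ⟨g, h, k, h1, h2, h3, h4, rfl⟩)
    · rw [map_mul, FreeGroup.lift_apply_of]
      ext x
      simp only [Equiv.Perm.mul_apply, rv_apply, Equiv.Perm.one_apply]
      split_ifs <;> omega
    · rw [map_mul, map_inv, mul_inv_eq_one, map_mul, map_mul, FreeGroup.lift_apply_of,
        FreeGroup.lift_apply_of]
      have := g.2
      have := h.2
      ext x
      simp only [Equiv.Perm.mul_apply, rv_apply]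
      split_ifs <;> omega
    · rw [map_mul, map_inv, mul_inv_eq_one, map_mul, map_mul, FreeGroup.lift_apply_of,
        FreeGroup.lift_apply_of, FreeGroup.lift_apply_of]
      have := g.2
      have := h.2
      have := k.2
      ext x
      simp only [Equiv.Perm.mul_apply, rv_apply, h3, h4]
      split_ifs <;> omega)

theorem perm_s {n p q : ℕ} (h : 1 ≤ p ∧ p < q ∧ q ≤ n) : perm n (s p q h) = rv p q := by
  exact PresentedGroup.toGroup.of _

/-- An element which does not preserve a colouring of `ℕ` preserved by `S` is not in the group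
generated by `S`. -/
theorem not_mem {n : ℕ} (S : Set (J n)) (g : J n) (f : ℕ → ℕ)
    (hS : ∀ x ∈ S, ∀ i, f (perm n x i) = f i) (i : ℕ) (hg : f (perm n g i) ≠ f i) :
    g ∉ Subgroup.closure S := by
  let K : Subgroup (J n) :=
    { carrier := {x | ∀ i, f (perm n x i) = f i}
      one_mem' := by intro i; simp
      mul_mem' := by
        intro x y hx hy i
        rw [map_mul, Equiv.Perm.mul_apply, hx, hy]
      inv_mem' := by
        intro x hx i
        have := hx ((perm n x)⁻¹ i)
        rw [show (perm n x) ((perm n x)⁻¹ i) = i from (perm n x).apply_symm_apply i] at this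
        rw [map_inv, ← this] }
  have hle : Subgroup.closure S ≤ K := by
    rw [Subgroup.closure_le]
    exact hS
  intro hmem
  exact hg (hle hmem i)

theorem double {G : Type*} [Group G] (S : Set G) (g : G) (hg : g ∉ Subgroup.closure S)
    (hfin : Finite (Subgroup.closure (insert g S))) :
    2 * Nat.card (Subgroup.closure S) ≤ Nat.card (Subgroup.closure (insert g S)) := by
  have hle : Subgroup.closure S ≤ Subgroup.closure (insert g S) :=
    Subgroup.closure_mono (Set.subset_insert _ _)
  obtain ⟨k, hk⟩ := Subgroup.card_dvd_of_le hle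
  have hpos : 0 < Nat.card (Subgroup.closure (insert g S)) := Nat.card_pos
  have hk2 : 2 ≤ k := by
    by_contra hlt
    have hk0 : k ≠ 0 := by
      rintro rfl
      omega
    have hk1 : k = 1 := by omega
    subst hk1
    have := Subgroup.eq_of_le_of_card_ge hle (by omega)
    exact hg (this ▸ Subgroup.subset_closure (Set.mem_insert _ _))
  rw [hk, mul_comm]
  exact Nat.mul_le_mul_left _ hk2

/-- The finite group: it is generated by `s_{1,2}`, `s_{1,4}`, `s_{1,8}`, `s_{9,10}`. -/
def H : Subgroup (J 10) :=
  Subgroup.closure {s 9 10 (by omega), s 1 8 (by omega), s 1 4 (by omega), s 1 2 (by omega)}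

theorem H_finite : Finite H := by
  have f0 : Finite (Subgroup.closure (∅ : Set (J 10))) := by
    rw [Subgroup.closure_empty]; infer_instance
  have f1 : Finite (Subgroup.closure (insert (s 1 2 (by omega)) (∅ : Set (J 10)))) :=
    finite_insert_central _ f0 _ (s_sq _) (by simp)
  have f2 : Finite (Subgroup.closure
      (insert (s 1 4 (by omega)) (insert (s 1 2 (by omega)) (∅ : Set (J 10))))) := by
    refine finite_insert_wreath _ f1 _ (s_sq _) ?_
    rintro x (rfl | hx) y (rfl | hy)
    · rw [s_conj (by omega) (by omega) (m' := 3) (r' := 4) (by omega) (by omega) (by omega)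
        (by omega) (by omega)]
      exact s_comm _ _ (by omega)
    all_goals simp at *
  have f3 : Finite (Subgroup.closure (insert (s 1 8 (by omega))
      (insert (s 1 4 (by omega)) (insert (s 1 2 (by omega)) (∅ : Set (J 10)))))) := by
    refine finite_insert_wreath _ f2 _ (s_sq _) ?_
    have e1 : s 1 8 (by omega) * s 1 2 (by omega) * s 1 8 (by omega) =
        (s 7 8 (by omega) : J 10) := s_conj _ _ _ (by omega) (by omega) (by omega) (by omega)
    have e2 : s 1 8 (by omega) * s 1 4 (by omega) * s 1 8 (by omega) =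
        (s 5 8 (by omega) : J 10) := s_conj _ _ _ (by omega) (by omega) (by omega) (by omega)
    rintro x (rfl | rfl | hx) y (rfl | rfl | hy)
    · rw [e2]; exact s_comm _ _ (by omega)
    · rw [e1]; exact s_comm _ _ (by omega)
    · simp at hy
    · rw [e2]; exact s_comm _ _ (by omega)
    · rw [e1]; exact s_comm _ _ (by omega)
    · simp at hy
    all_goals simp at hx
  have f4 : Finite (Subgroup.closure (insert (s 9 10 (by omega)) (insert (s 1 8 (by omega))
      (insert (s 1 4 (by omega)) (insert (s 1 2 (by omega)) (∅ : Set (J 10))))))) := by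
    refine finite_insert_central _ f3 _ (s_sq _) ?_
    rintro x (rfl | rfl | rfl | hx)
    · exact s_comm _ _ (by omega)
    · exact s_comm _ _ (by omega)
    · exact s_comm _ _ (by omega)
    · simp at hx
  have h : ({s 9 10 (by omega), s 1 8 (by omega), s 1 4 (by omega), s 1 2 (by omega)} :
      Set (J 10)) = insert (s 9 10 (by omega)) (insert (s 1 8 (by omega))
      (insert (s 1 4 (by omega)) (insert (s 1 2 (by omega)) (∅ : Set (J 10))))) := by
    simp
  rw [H, h]
  exact f4

theorem double' {S : Set (J 10)} (g : J 10) (hg : g ∉ Subgroup.closure S)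
    (hH : Subgroup.closure (insert g S) ≤ H) :
    2 * Nat.card (Subgroup.closure S) ≤ Nat.card (Subgroup.closure (insert g S)) := by
  have := H_finite
  exact double S g hg (Finite.of_injective _ (Subgroup.inclusion_injective hH))

theorem H_card : 256 ≤ Nat.card H := by
  have := H_finite
  have m910 : s 9 10 (by omega) ∈ H := Subgroup.subset_closure (by simp)
  have m18 : s 1 8 (by omega) ∈ H := Subgroup.subset_closure (by simp)
  have m14 : s 1 4 (by omega) ∈ H := Subgroup.subset_closure (by simp)
  have m12 : s 1 2 (by omega) ∈ H := Subgroup.subset_closure (by simp)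
  have m34 : s 3 4 (by omega) ∈ H := by
    rw [← s_conj (n := 10) (p := 1) (q := 4) (m := 1) (r := 2) (by omega) (by omega) (by omega)
      (by omega) (by omega) (by omega) (by omega)]
    exact H.mul_mem (H.mul_mem m14 m12) m14
  have m58 : s 5 8 (by omega) ∈ H := by
    rw [← s_conj (n := 10) (p := 1) (q := 8) (m := 1) (r := 4) (by omega) (by omega) (by omega)
      (by omega) (by omega) (by omega) (by omega)]
    exact H.mul_mem (H.mul_mem m18 m14) m18
  have m78 : s 7 8 (by omega) ∈ H := by
    rw [← s_conj (n := 10) (p := 1) (q := 8) (m := 1) (r := 2) (by omega) (by omega) (by omega)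
      (by omega) (by omega) (by omega) (by omega)]
    exact H.mul_mem (H.mul_mem m18 m12) m18
  have m56 : s 5 6 (by omega) ∈ H := by
    rw [← s_conj (n := 10) (p := 1) (q := 8) (m := 3) (r := 4) (by omega) (by omega) (by omega)
      (by omega) (by omega) (by omega) (by omega)]
    exact H.mul_mem (H.mul_mem m18 m34) m18
  have c0 : 1 ≤ Nat.card (Subgroup.closure (∅ : Set (J 10))) := by
    have : Finite (Subgroup.closure (∅ : Set (J 10))) := by
      rw [Subgroup.closure_empty]; infer_instance
    exact Nat.card_pos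
  have c1 := double' (S := ∅) (s 1 2 (by omega))
    (not_mem _ _ (fun x => x) (by simp) 1 (by rw [perm_s, rv_apply]; decide))
    (by
      rw [Subgroup.closure_le]
      rintro x (rfl | hx)
      · exact m12
      · simp at hx)
  have c2 := double' (S := insert (s 1 2 (by omega)) ∅) (s 3 4 (by omega))
    (not_mem _ _ (fun x => if x = 3 then 1 else 0) (by
      rintro x (rfl | hx) i
      · rw [perm_s, rv_apply]; split_ifs <;> omega
      · simp at hx) 3 (by rw [perm_s, rv_apply]; decide))
    (by
      rw [Subgroup.closure_le]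
      rintro x (rfl | rfl | hx)
      · exact m34
      · exact m12
      · simp at hx)
  have c3 := double' (S := insert (s 3 4 (by omega)) (insert (s 1 2 (by omega)) ∅))
    (s 1 4 (by omega))
    (not_mem _ _ (fun x => if x ≤ 2 then 1 else 0) (by
      rintro x (rfl | rfl | hx) i
      · rw [perm_s, rv_apply]; split_ifs <;> omega
      · rw [perm_s, rv_apply]; split_ifs <;> omega
      · simp at hx) 1 (by rw [perm_s, rv_apply]; decide))
    (by
      rw [Subgroup.closure_le]
      rintro x (rfl | rfl | rfl | hx)
      · exact m14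
      · exact m34
      · exact m12
      · simp at hx)
  have c4 := double' (S := insert (s 1 4 (by omega)) (insert (s 3 4 (by omega))
      (insert (s 1 2 (by omega)) ∅)))
    (s 5 6 (by omega))
    (not_mem _ _ (fun x => if x = 5 then 1 else 0) (by
      rintro x (rfl | rfl | rfl | hx) i
      · rw [perm_s, rv_apply]; split_ifs <;> omega
      · rw [perm_s, rv_apply]; split_ifs <;> omega
      · rw [perm_s, rv_apply]; split_ifs <;> omega
      · simp at hx) 5 (by rw [perm_s, rv_apply]; decide))
    (by
      rw [Subgroup.closure_le]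
      rintro x (rfl | rfl | rfl | rfl | hx)
      · exact m56
      · exact m14
      · exact m34
      · exact m12
      · simp at hx)
  have c5 := double' (S := insert (s 5 6 (by omega)) (insert (s 1 4 (by omega))
      (insert (s 3 4 (by omega)) (insert (s 1 2 (by omega)) ∅))))
    (s 7 8 (by omega))
    (not_mem _ _ (fun x => if x = 7 then 1 else 0) (by
      rintro x (rfl | rfl | rfl | rfl | hx) i
      · rw [perm_s, rv_apply]; split_ifs <;> omega
      · rw [perm_s, rv_apply]; split_ifs <;> omega
      · rw [perm_s, rv_apply]; split_ifs <;> omega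
      · rw [perm_s, rv_apply]; split_ifs <;> omega
      · simp at hx) 7 (by rw [perm_s, rv_apply]; decide))
    (by
      rw [Subgroup.closure_le]
      rintro x (rfl | rfl | rfl | rfl | rfl | hx)
      · exact m78
      · exact m56
      · exact m14
      · exact m34
      · exact m12
      · simp at hx)
  have c6 := double' (S := insert (s 7 8 (by omega)) (insert (s 5 6 (by omega))
      (insert (s 1 4 (by omega)) (insert (s 3 4 (by omega)) (insert (s 1 2 (by omega)) ∅)))))
    (s 5 8 (by omega))
    (not_mem _ _ (fun x => if x = 5 ∨ x = 6 then 1 else 0) (by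
      rintro x (rfl | rfl | rfl | rfl | rfl | hx) i
      · rw [perm_s, rv_apply]; split_ifs <;> omega
      · rw [perm_s, rv_apply]; split_ifs <;> omega
      · rw [perm_s, rv_apply]; split_ifs <;> omega
      · rw [perm_s, rv_apply]; split_ifs <;> omega
      · rw [perm_s, rv_apply]; split_ifs <;> omega
      · simp at hx) 5 (by rw [perm_s, rv_apply]; decide))
    (by
      rw [Subgroup.closure_le]
      rintro x (rfl | rfl | rfl | rfl | rfl | rfl | hx)
      · exact m58
      · exact m78
      · exact m56
      · exact m14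
      · exact m34
      · exact m12
      · simp at hx)
  have c7 := double' (S := insert (s 5 8 (by omega)) (insert (s 7 8 (by omega))
      (insert (s 5 6 (by omega)) (insert (s 1 4 (by omega)) (insert (s 3 4 (by omega))
      (insert (s 1 2 (by omega)) ∅))))))
    (s 1 8 (by omega))
    (not_mem _ _ (fun x => if x ≤ 4 then 1 else 0) (by
      rintro x (rfl | rfl | rfl | rfl | rfl | rfl | hx) i
      · rw [perm_s, rv_apply]; split_ifs <;> omega
      · rw [perm_s, rv_apply]; split_ifs <;> omega
      · rw [perm_s, rv_apply]; split_ifs <;> omega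
      · rw [perm_s, rv_apply]; split_ifs <;> omega
      · rw [perm_s, rv_apply]; split_ifs <;> omega
      · rw [perm_s, rv_apply]; split_ifs <;> omega
      · simp at hx) 1 (by rw [perm_s, rv_apply]; decide))
    (by
      rw [Subgroup.closure_le]
      rintro x (rfl | rfl | rfl | rfl | rfl | rfl | rfl | hx)
      · exact m18
      · exact m58
      · exact m78
      · exact m56
      · exact m14
      · exact m34
      · exact m12
      · simp at hx)
  have hle : Subgroup.closure (insert (s 9 10 (by omega)) (insert (s 1 8 (by omega))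
      (insert (s 5 8 (by omega)) (insert (s 7 8 (by omega))
      (insert (s 5 6 (by omega)) (insert (s 1 4 (by omega)) (insert (s 3 4 (by omega))
      (insert (s 1 2 (by omega)) ∅)))))))) ≤ H := by
    rw [Subgroup.closure_le]
    rintro x (rfl | rfl | rfl | rfl | rfl | rfl | rfl | rfl | hx)
    · exact m910
    · exact m18
    · exact m58
    · exact m78
    · exact m56
    · exact m14
    · exact m34
    · exact m12
    · simp at hx
  have c8 := double' (S := insert (s 1 8 (by omega)) (insert (s 5 8 (by omega))
      (insert (s 7 8 (by omega))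
      (insert (s 5 6 (by omega)) (insert (s 1 4 (by omega)) (insert (s 3 4 (by omega))
      (insert (s 1 2 (by omega)) ∅)))))))
    (s 9 10 (by omega))
    (not_mem _ _ (fun x => if x = 9 then 1 else 0) (by
      rintro x (rfl | rfl | rfl | rfl | rfl | rfl | rfl | hx) i
      · rw [perm_s, rv_apply]; split_ifs <;> omega
      · rw [perm_s, rv_apply]; split_ifs <;> omega
      · rw [perm_s, rv_apply]; split_ifs <;> omega
      · rw [perm_s, rv_apply]; split_ifs <;> omega
      · rw [perm_s, rv_apply]; split_ifs <;> omega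
      · rw [perm_s, rv_apply]; split_ifs <;> omega
      · rw [perm_s, rv_apply]; split_ifs <;> omega
      · simp at hx) 9 (by rw [perm_s, rv_apply]; decide)) hle
  have c9 := Nat.card_le_card_of_injective _ (Subgroup.inclusion_injective hle)
  omega

/-- **The description of the finite subgroups of cactus groups by the groups `W(r_1, …, r_s)` is
false.** For `n = 10` there is a finite group `G` (of order at least `256`) which embeds into the
cactus group `J_10`, but into no `W(r_1, …, r_s)` with all `r_k ≥ 2` and `r_1 ⋯ r_s ≤ 10 / 2`. -/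
theorem result : ∃ n : ℕ, 2 ≤ n ∧ ∃ (G : Type) (_ : Group G), Finite G ∧ Embeds G (J n) ∧
    ∀ l : List ℕ, (∀ r ∈ l, 2 ≤ r) → (l.prod : ℚ) ≤ (n : ℚ) / 2 → ¬ Embeds G (W l) := by
  refine ⟨10, by norm_num, H, inferInstance, H_finite, ⟨H.subtype, H.subtype_injective⟩, ?_⟩
  rintro l h2 hl ⟨f, hf⟩
  have hl' : 2 * l.prod ≤ 10 := by
    have : ((2 * l.prod : ℕ) : ℚ) ≤ (10 : ℕ) := by
      push_cast at hl ⊢
      linarith
    exact_mod_cast this
  obtain ⟨hfin, hcard⟩ := card_W l
  have h1 : Nat.card H ≤ Nat.card (W l) := Nat.card_le_card_of_injective _ hf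
  have h3 := foldl_le l h2 hl'
  have h4 := H_card
  omega

end Pool.Agent.Results.MP_2b0b8a_al.SylowTen
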